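import Pool.Agent.Lib.MP_6f5a85_an.Final

/-!
The optimal quasisymmetry gauge between the Julia set of `z ↦ (z^3 - 16/27) / z` and the
Sierpinski triangle.
-/

namespace Pool.Agent.Results.MP_6f5a85_an.SharpGauge

open Pool.Agent.Lib.MP_6f5a85_an NNReal

/-- The quasisymmetry inequality for `h` with gauge `η`. -/
def IsQS {A B : Set ℂ} (h : A ≃ₜ B) (η : ℝ≥0 → ℝ≥0) : Prop :=
  ∀ x a b : A, x ≠ b →
    nndist (h x) (h a) / nndist (h x) (h b) ≤ η (nndist x a / nndist x b)

/-- The function `max (t^α, t^(2α))` with `α = log 2 / log 3`. -/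
noncomputable def gauge (t : ℝ) : ℝ :=
  max (t ^ (Real.log 2 / Real.log 3)) (t ^ (2 * (Real.log 2 / Real.log 3)))

theorem mono_of_homeo (η : ℝ≥0 ≃ₜ ℝ≥0) : Monotone η := by
  rcases η.continuous.strictMono_of_inj η.injective with h | h
  · exact h.monotone
  · exfalso
    obtain ⟨t, ht⟩ := η.surjective (η 0 + 1)
    have := h.antitone (zero_le (a := t))
    rw [ht] at this
    exact absurd this (not_le.2 (lt_add_one _))

theorem result (v : Fin 3 → ℂ) (h0 : v 0 ≠ v 1) (h1 : dist (v 1) (v 2) = dist (v 0) (v 1))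
    (h2 : dist (v 2) (v 0) = dist (v 0) (v 1)) (S : Set ℂ) (hne : S.Nonempty) (hc : IsCompact S)
    (hS : S = ⋃ i, (fun x => (x + v i) / 2) '' S) (θ : ℝ≥0 → ℝ) :
    (∃ (h : julia ≃ₜ S) (η : ℝ≥0 ≃ₜ ℝ≥0), IsQS h η ∧
      ∃ C : ℝ, 0 < C ∧ ∀ t : ℝ≥0, (η t : ℝ) ≤ C * θ t) ↔
    ∃ c : ℝ, 0 < c ∧ ∀ t : ℝ≥0, c * gauge t ≤ θ t := by
  obtain ⟨T, e, hT, he⟩ := reduce h0 h1 h2 hne hc hS
  constructor
  · rintro ⟨h, η, hq, C, hC, hθ⟩
    have hη := mono_of_homeo η
    obtain ⟨c, hc, k⟩ := lower hT (h.trans e.symm) (η := fun t => η t.toNNReal)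
      (fun s t hst => hη (Real.toNNReal_le_toNNReal hst)) fun x a b hx => by
        have := NNReal.coe_le_coe.2 (hq x a b hx)
        rw [← he, show (dist x a / dist x b).toNNReal = nndist x a / nndist x b from
          Real.toNNReal_coe (r := nndist x a / nndist x b)]
        simpa using this
    refine ⟨c / C, div_pos hc hC, fun t => ?_⟩
    have key : c * gauge t ≤ (η t : ℝ) := by
      rcases t.2.eq_or_lt with e0 | e0
      · have e1 : (t : ℝ) = 0 := e0.symm
        have : gauge t = 0 := by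
          rw [e1]
          show max ((0 : ℝ) ^ ex) (0 ^ (2 * ex)) = 0
          rw [Real.zero_rpow ex_pos.ne', Real.zero_rpow (by linarith [ex_pos]), max_self]
        rw [this, mul_zero]; exact (η t).2
      · have := k t e0
        rw [Real.toNNReal_coe] at this
        exact this
    rw [div_mul_eq_mul_div, div_le_iff₀ hC, mul_comm (θ t)]
    exact key.trans (hθ t)
  · rintro ⟨c, hc, k⟩
    obtain ⟨C, hC, hh⟩ := upper hT
    obtain ⟨η, hη⟩ := exists_gauge hC ex_pos
    obtain ⟨h, -⟩ := exists_homeo hT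
    refine ⟨h.trans e, η, fun x a b hx => ?_, C / c, div_pos hC hc, fun t => ?_⟩
    · have := hh h x a b hx
      rw [← he] at this
      rw [← NNReal.coe_le_coe, hη]
      simpa using this
    · have e1 : (η t : ℝ) = C / c * (c * gauge t) := by
        rw [hη, ← mul_assoc, div_mul_cancel₀ _ hc.ne']; rfl
      rw [e1]
      exact mul_le_mul_of_nonneg_left (k t) (div_pos hC hc).le

end Pool.Agent.Results.MP_6f5a85_an.SharpGauge
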